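import Pool.Agent.Y171.CE.Stm

/-!
The number of divisors of a nonzero polynomial over the field with `p` elements.
-/

set_option autoImplicit false

open Polynomial

namespace Pool.Agent.Y50.CE

theorem dvd_subset {R : Type} [Field R] (q m : R[X]) (hq : Prime q) :
    {d : R[X] | d ∣ q * m} ⊆ {d : R[X] | d ∣ m} ∪ (fun d => q * d) '' {d : R[X] | d ∣ m} := by
  intro d hd
  have hd' : d ∣ q * m := hd
  by_cases h : q ∣ d
  · obtain ⟨e, rfl⟩ := h
    right
    exact ⟨e, (mul_dvd_mul_iff_left hq.ne_zero).1 hd', rfl⟩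
  · left
    have hc : IsCoprime q d := (Irreducible.coprime_iff_not_dvd hq.irreducible).2 h
    exact hc.symm.dvd_of_dvd_mul_left hd'

theorem ndiv : Pool.Agent.Y171.CE.S_NDIV := by
  intro p hp m
  refine UniqueFactorizationMonoid.induction_on_prime m ?_ ?_ ?_
  · intro h
    exact absurd rfl h
  · intro u hu _
    have hsub : {d : (ZMod p)[X] | d ∣ u} ⊆ Set.range (C : ZMod p → (ZMod p)[X]) := by
      intro d hd
      have hdu : IsUnit d := isUnit_of_dvd_unit hd hu
      obtain ⟨r, -, hr⟩ := Polynomial.isUnit_iff.1 hdu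
      exact ⟨r, hr⟩
    have hfin : (Set.range (C : ZMod p → (ZMod p)[X])).Finite := Set.finite_range _
    refine ⟨hfin.subset hsub, ?_⟩
    have h1 : (Set.range (C : ZMod p → (ZMod p)[X])).ncard ≤ p := by
      rw [← Set.image_univ]
      refine (Set.ncard_image_le Set.finite_univ).trans ?_
      rw [Set.ncard_univ, Nat.card_zmod]
    calc _ ≤ (Set.range (C : ZMod p → (ZMod p)[X])).ncard := Set.ncard_le_ncard hsub hfin
      _ ≤ p := h1
      _ ≤ p * 2 ^ u.natDegree := Nat.le_mul_of_pos_right _ (by positivity)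
  · intro a q ha hq ih _
    obtain ⟨hf, hc⟩ := ih ha
    have hfin : ({d : (ZMod p)[X] | d ∣ a} ∪ (fun d => q * d) '' {d : (ZMod p)[X] | d ∣ a}).Finite :=
      hf.union (hf.image _)
    refine ⟨hfin.subset (dvd_subset q a hq), ?_⟩
    have hdeg : 1 ≤ q.natDegree := by
      rw [Nat.one_le_iff_ne_zero]
      intro h0
      have h1 : q = C (q.coeff 0) := eq_C_of_natDegree_eq_zero h0
      have h2 : q.coeff 0 ≠ 0 := by
        intro h3
        rw [h3, C_0] at h1
        exact hq.ne_zero h1
      exact hq.not_isUnit (Polynomial.isUnit_iff.2 ⟨q.coeff 0, isUnit_iff_ne_zero.2 h2, h1.symm⟩)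
    have hmul : (q * a).natDegree = q.natDegree + a.natDegree := natDegree_mul hq.ne_zero ha
    calc _ ≤ ({d : (ZMod p)[X] | d ∣ a} ∪ (fun d => q * d) '' {d : (ZMod p)[X] | d ∣ a}).ncard :=
          Set.ncard_le_ncard (dvd_subset q a hq) hfin
      _ ≤ {d : (ZMod p)[X] | d ∣ a}.ncard + ((fun d => q * d) '' {d : (ZMod p)[X] | d ∣ a}).ncard :=
          Set.ncard_union_le _ _
      _ ≤ {d : (ZMod p)[X] | d ∣ a}.ncard + {d : (ZMod p)[X] | d ∣ a}.ncard := by
          exact Nat.add_le_add_left (Set.ncard_image_le hf) _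
      _ ≤ p * 2 ^ a.natDegree + p * 2 ^ a.natDegree := by gcongr
      _ = p * 2 ^ (1 + a.natDegree) := by ring
      _ ≤ p * 2 ^ (q * a).natDegree := by
          rw [hmul]
          gcongr
          norm_num

end Pool.Agent.Y50.CE
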